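import Pool.Agent.X195.JM4

/-!
The pair `(G, H)` has the basis property if and only if both graphs are vertex-disjoint unions of
cycles of odd length.
-/
open Finset MvPolynomial

set_option linter.unusedSectionVars false
set_option linter.unusedVariables false
set_option linter.style.haveILetI false

namespace Pool.Agent.Results.MP_305ad1_co.OddCycleBases

open Pool.Agent.X195.JM

universe u

/-- the field `F(x_{a,b})` of rational functions in the entries of an `n × m` matrix -/
abbrev RatField (F : Type u) [Field F] (n m : ℕ) : Type u :=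
  FractionRing (MvPolynomial (Fin n × Fin m) F)

/-- the binomial `x_{i,k} x_{j,l} - x_{i,l} x_{j,k}` -/
noncomputable def binom (F : Type u) [Field F] {n m : ℕ} (i j : Fin n) (k l : Fin m) :
    MvPolynomial (Fin n × Fin m) F :=
  X (i, k) * X (j, l) - X (i, l) * X (j, k)

/-- the row of the Jacobian matrix that belongs to the pair of edges `e`, `e'` -/
noncomputable def jacRow (F : Type u) [Field F] {n m : ℕ} (e : Sym2 (Fin n)) (e' : Sym2 (Fin m)) :
    Fin n × Fin m → RatField F n m :=
  fun ab => algebraMap (MvPolynomial (Fin n × Fin m) F) (RatField F n m)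
    (pderiv ab (binom F e.inf e.sup e'.inf e'.sup))

/-- the basis property of the pair `(G, H)` -/
def BasisProperty (F : Type u) [Field F] {n m : ℕ} (G : SimpleGraph (Fin n))
    (H : SimpleGraph (Fin m)) : Prop :=
  LinearIndependent (RatField F n m)
    (fun q : G.edgeSet × H.edgeSet => jacRow F (q.1 : Sym2 (Fin n)) (q.2 : Sym2 (Fin m))) ∧
  Submodule.span (RatField F n m)
      (Set.range fun q : G.edgeSet × H.edgeSet =>
        jacRow F (q.1 : Sym2 (Fin n)) (q.2 : Sym2 (Fin m))) =
    Submodule.span (RatField F n m)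
      (Set.range fun q : (⊤ : SimpleGraph (Fin n)).edgeSet × (⊤ : SimpleGraph (Fin m)).edgeSet =>
        jacRow F (q.1 : Sym2 (Fin n)) (q.2 : Sym2 (Fin m)))

/-- `G` is a vertex-disjoint union of cycles of odd length: its edges are the pairs `{v, π v}` for
a permutation `π` of the vertices without fixed points all of whose cycles have odd length -/
def OddCycleUnion {n : ℕ} (G : SimpleGraph (Fin n)) : Prop :=
  ∃ π : Equiv.Perm (Fin n), (∀ v, Odd (Function.minimalPeriod π v)) ∧ (∀ v, π v ≠ v) ∧
    ∀ v w, G.Adj v w ↔ (π v = w ∨ π w = v)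

section aux

variable {F : Type u} [Field F] {n m : ℕ}

/-- the generic entry -/
noncomputable def xv (F : Type u) [Field F] {n m : ℕ} (a : Fin n) (b : Fin m) : RatField F n m :=
  algebraMap (MvPolynomial (Fin n × Fin m) F) (RatField F n m) (X (a, b))

/-- the linearised minor -/
noncomputable def EE (y : Fin n × Fin m → RatField F n m) (i j : Fin n) (k l : Fin m) :
    RatField F n m :=
  y (i, k) * xv F j l + xv F i k * y (j, l) - y (i, l) * xv F j k - xv F i l * y (j, k)

theorem dot_row (y : Fin n × Fin m → RatField F n m) (e : Sym2 (Fin n)) (e' : Sym2 (Fin m)) :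
    ∑ ab, jacRow F e e' ab * y ab = EE y e.inf e.sup e'.inf e'.sup := by
  have h1 : ∀ ab : Fin n × Fin m, jacRow F e e' ab * y ab =
      (if (e.inf, e'.inf) = ab then xv F e.sup e'.sup * y ab else 0) +
      (if (e.sup, e'.sup) = ab then xv F e.inf e'.inf * y ab else 0) -
      (if (e.inf, e'.sup) = ab then xv F e.sup e'.inf * y ab else 0) -
      (if (e.sup, e'.inf) = ab then xv F e.inf e'.sup * y ab else 0) := by
    intro ab
    simp only [jacRow, binom, map_sub, pderiv_mul, pderiv_X, Pi.single_apply, map_add, map_mul, xv]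
    split_ifs <;> simp <;> ring
  rw [sum_congr rfl fun ab _ => h1 ab]
  simp only [sum_add_distrib, sum_sub_distrib, sum_ite_eq, mem_univ, if_true, EE]
  ring

theorem EE_sym (y : Fin n × Fin m → RatField F n m) (i j : Fin n) (k l : Fin m) :
    EE y (s(i, j)).inf (s(i, j)).sup (s(k, l)).inf (s(k, l)).sup = 0 ↔ EE y i j k l = 0 := by
  simp only [Sym2.inf_mk, Sym2.sup_mk]
  rcases le_total i j with h | h <;> rcases le_total k l with h' | h'
  · rw [inf_eq_left.2 h, sup_eq_right.2 h, inf_eq_left.2 h', sup_eq_right.2 h']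
  · rw [inf_eq_left.2 h, sup_eq_right.2 h, inf_eq_right.2 h', sup_eq_left.2 h']
    simp only [EE]
    constructor <;> intro h1 <;> linear_combination -h1
  · rw [inf_eq_right.2 h, sup_eq_left.2 h, inf_eq_left.2 h', sup_eq_right.2 h']
    simp only [EE]
    constructor <;> intro h1 <;> linear_combination -h1
  · rw [inf_eq_right.2 h, sup_eq_left.2 h, inf_eq_right.2 h', sup_eq_left.2 h']
    simp only [EE]
    constructor <;> intro h1 <;> linear_combination h1

theorem alg_indep : AlgebraicIndependent F (fun p : Fin n × Fin m => xv F p.1 p.2) := by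
  have h1 := MvPolynomial.algebraicIndependent_X (Fin n × Fin m) F
  exact h1.map' (f := IsScalarTower.toAlgHom F (MvPolynomial (Fin n × Fin m) F) (RatField F n m))
    (IsFractionRing.injective (MvPolynomial (Fin n × Fin m) F) (RatField F n m))

theorem xv_ne (a : Fin n) (b : Fin m) : (xv F a b : RatField F n m) ≠ 0 := by
  intro h
  have h1 : (X (a, b) : MvPolynomial (Fin n × Fin m) F) = 0 := by
    apply IsFractionRing.injective (MvPolynomial (Fin n × Fin m) F) (RatField F n m)
    rw [map_zero]
    exact h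
  exact X_ne_zero _ h1

theorem span_top_iff (G : SimpleGraph (Fin n)) (H : SimpleGraph (Fin m)) :
    Submodule.span (RatField F n m) (Set.range fun q : G.edgeSet × H.edgeSet =>
      jacRow F (q.1 : Sym2 (Fin n)) (q.2 : Sym2 (Fin m))) = ⊤ ↔
    NF G H (fun a b => (xv F a b : RatField F n m)) := by
  constructor
  · intro h y hy
    set f : (Fin n × Fin m → RatField F n m) →ₗ[RatField F n m] RatField F n m :=
      { toFun := fun v => ∑ ab, v ab * y ab.1 ab.2
        map_add' := fun a b => by
          rw [← sum_add_distrib]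
          exact sum_congr rfl fun ab _ => by rw [Pi.add_apply, add_mul]
        map_smul' := fun c a => by
          simp only [Pi.smul_apply, smul_eq_mul, RingHom.id_apply, mul_sum]
          exact sum_congr rfl fun ab _ => by rw [mul_assoc] } with hf
    have h1 : Submodule.span (RatField F n m) (Set.range fun q : G.edgeSet × H.edgeSet =>
        jacRow F (q.1 : Sym2 (Fin n)) (q.2 : Sym2 (Fin m))) ≤ LinearMap.ker f := by
      rw [Submodule.span_le]
      rintro _ ⟨⟨⟨e, he⟩, ⟨e', he'⟩⟩, rfl⟩
      show f _ = 0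
      show ∑ ab, jacRow F e e' ab * y ab.1 ab.2 = 0
      induction e using Sym2.inductionOn with
      | hf i j =>
      induction e' using Sym2.inductionOn with
      | hf k l =>
      have h2 := dot_row (F := F) (fun ab : Fin n × Fin m => y ab.1 ab.2) s(i, j) s(k, l)
      refine h2.trans ?_
      rw [EE_sym]
      exact hy i j he k l he'
    rw [h, top_le_iff, LinearMap.ker_eq_top] at h1
    funext a b
    have h2 : f (Pi.single (a, b) 1) = y a b := by
      show ∑ ab : Fin n × Fin m, (Pi.single (a, b) 1 : Fin n × Fin m → RatField F n m) ab *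
        y ab.1 ab.2 = _
      simp only [Pi.single_apply, ite_mul, one_mul, zero_mul, sum_ite_eq', mem_univ, if_true]
    rw [← h2, h1]
    rfl
  · intro h
    by_contra hne
    obtain ⟨f, hf0, hf⟩ := Submodule.exists_le_ker_of_lt_top _ (lt_top_iff_ne_top.2 hne)
    apply hf0
    have hfv : ∀ v, f v = ∑ ab, v ab * f (Pi.single ab 1) := by
      intro v
      conv_lhs => rw [show v = ∑ ab, v ab • (Pi.single ab 1 : Fin n × Fin m → RatField F n m) from by
        funext c
        rw [Finset.sum_apply]
        simp [Pi.single_apply]]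
      rw [map_sum]
      exact sum_congr rfl fun ab _ => by rw [map_smul, smul_eq_mul]
    have h1 := h (fun a b => f (Pi.single (a, b) 1)) (by
      intro i j hij k l hkl
      have h2 : f (jacRow F s(i, j) s(k, l)) = 0 := by
        have h3 := hf (Submodule.subset_span ⟨(⟨s(i, j), hij⟩, ⟨s(k, l), hkl⟩), rfl⟩)
        exact h3
      rw [hfv, dot_row, EE_sym] at h2
      exact h2)
    apply LinearMap.ext
    intro v
    rw [hfv, LinearMap.zero_apply]
    apply sum_eq_zero
    intro ab _
    have h2 : f (Pi.single ab 1) = 0 := congrFun (congrFun h1 ab.1) ab.2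
    rw [h2, mul_zero]

theorem NF_top [CharZero F] (hn : 3 ≤ n) (hm : 3 ≤ m) :
    NF (⊤ : SimpleGraph (Fin n)) (⊤ : SimpleGraph (Fin m))
      (fun a b => (xv F a b : RatField F n m)) := by
  intro y hy
  funext u w
  obtain ⟨f, hf, hf0⟩ := exists_inj hn u
  obtain ⟨g0, hg, hg0⟩ := exists_inj hm w
  let g : ZMod 3 → Fin m := g0
  have hz : AlgebraicIndependent F (fun p : Fin (2 * 0 + 2 + 1) × ZMod 3 =>
      (xv F (f p.1) (g p.2) : RatField F n m)) :=
    (alg_indep (F := F) (n := n) (m := m)).comp (Prod.map f g) (hf.prodMap hg)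
  have h1 := generic (F := F) (m := 3) (by decide) le_rfl 0 _ hz (fun p => y (f p.1) (g p.2)) (by
    intro i w
    have hi : ∀ i : Fin (2 * 0 + 2 + 1), i ≠ i + 1 := by decide
    have hw : ∀ w : ZMod 3, w ≠ w + 1 := by decide
    exact hy (f i) (f (i + 1)) (fun h => hi i (hf h)) (g w) (g (w + 1)) (fun h => hw w (hg h)))
  have h2 := congrFun h1 (0, 0)
  simp only at h2
  rw [hf0] at h2
  have h3 : g (0 : ZMod 3) = w := hg0
  rw [h3] at h2
  exact h2

end aux

theorem result (F : Type u) [Field F] [CharZero F] (n m : ℕ) (hn : 3 ≤ n) (hm : 3 ≤ m)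
    (G : SimpleGraph (Fin n)) (H : SimpleGraph (Fin m)) (hG : ∀ v, ∃ w, G.Adj v w)
    (hH : ∀ v, ∃ w, H.Adj v w) :
    BasisProperty F G H ↔ OddCycleUnion G ∧ OddCycleUnion H := by
  classical
  have htop := (span_top_iff (F := F) (⊤ : SimpleGraph (Fin n)) (⊤ : SimpleGraph (Fin m))).2
    (NF_top hn hm)
  have hfr : Module.finrank (RatField F n m) (Fin n × Fin m → RatField F n m) = n * m := by
    rw [Module.finrank_pi, Fintype.card_prod, Fintype.card_fin, Fintype.card_fin]
  haveI : Nonempty (Fin n) := ⟨⟨0, by omega⟩⟩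
  haveI : Nonempty (Fin m) := ⟨⟨0, by omega⟩⟩
  constructor
  · rintro ⟨hli, hspan⟩
    rw [htop] at hspan
    have hNF := (span_top_iff (F := F) G H).1 hspan
    have hNF' := NF_swap hNF
    have hx1 : ∀ v : Fin n, ∃ w : Fin m, (xv F v w : RatField F n m) ≠ 0 :=
      fun v => ⟨Classical.arbitrary _, xv_ne _ _⟩
    have hx2 : ∀ w : Fin m, ∃ v : Fin n, (xv F v w : RatField F n m) ≠ 0 :=
      fun v => ⟨Classical.arbitrary _, xv_ne _ _⟩
    have hd1 := two_le_degree G hG (fun i j hij => NF_leaf hNF hx1 hij)
    have hd2 := two_le_degree H hH (fun i j hij => NF_leaf hNF' hx2 hij)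
    obtain ⟨hc1, hc1'⟩ := le_card_edges G hd1
    obtain ⟨hc2, hc2'⟩ := le_card_edges H hd2
    have hle := hli.fintype_card_le_finrank
    rw [hfr, Fintype.card_prod] at hle
    rw [Fintype.card_fin] at hc1 hc2 hc1' hc2'
    have he1 : Fintype.card G.edgeSet = n := by
      by_contra hne
      have h1 : n + 1 ≤ Fintype.card G.edgeSet := by omega
      have h2 : (n + 1) * m ≤ Fintype.card G.edgeSet * Fintype.card H.edgeSet :=
        Nat.mul_le_mul h1 hc2
      nlinarith
    have he2 : Fintype.card H.edgeSet = m := by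
      by_contra hne
      have h1 : m + 1 ≤ Fintype.card H.edgeSet := by omega
      have h2 : n * (m + 1) ≤ Fintype.card G.edgeSet * Fintype.card H.edgeSet :=
        Nat.mul_le_mul hc1 h1
      nlinarith
    obtain ⟨π, hπ⟩ := perm_of_degree G (hc1' he1)
    obtain ⟨τ, hτ⟩ := perm_of_degree H (hc2' he2)
    exact ⟨⟨π, NF_even hNF hx1 π hπ, fun v h => G.loopless.irrefl v ((hπ v v).2 (Or.inl h)), hπ⟩,
      ⟨τ, NF_even hNF' hx2 τ hτ, fun v h => H.loopless.irrefl v ((hτ v v).2 (Or.inl h)), hτ⟩⟩
  · rintro ⟨⟨π, hπodd, hπfix, hπ⟩, ⟨τ, hτodd, hτfix, hτ⟩⟩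
    have hNF : NF G H (fun a b => (xv F a b : RatField F n m)) := by
      intro y hy
      funext a b
      exact perm_null (F := F) π τ hπodd hπfix hτodd hτfix _ alg_indep y (fun u w =>
        hy u (π u) ((hπ _ _).2 (Or.inl rfl)) w (τ w) ((hτ _ _).2 (Or.inl rfl))) a b
    have hspan := (span_top_iff (F := F) G H).2 hNF
    have hc1 := card_edges G (degree_of_perm G π hπodd hπfix hπ)
    have hc2 := card_edges H (degree_of_perm H τ hτodd hτfix hτ)
    refine ⟨linearIndependent_of_top_le_span_of_card_eq_finrank hspan.ge ?_, by rw [hspan, htop]⟩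
    rw [hfr, Fintype.card_prod, hc1, hc2, Fintype.card_fin, Fintype.card_fin]

end Pool.Agent.Results.MP_305ad1_co.OddCycleBases
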